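import Mathlib
import Pool.Agent.U424.DQ.Stm
import Pool.Agent.N353.PN.UN3

/-!
# Project DQ, part TEX: a common value with one auxiliary prime
-/

set_option autoImplicit false

namespace Pool.Agent.U373.DQ

open Finset Pool.Agent.N718.DC Pool.Agent.U424.DQ

theorem solM_three {m : ℕ} {K : Type} [Field K] (hm : 2 < m) (a : Fin m → K) (u v w : K)
    (hne : u ≠ 0 ∨ v ≠ 0 ∨ w ≠ 0)
    (he : a ⟨0, by omega⟩ * u ^ 2 + a ⟨1, by omega⟩ * v ^ 2 = -a ⟨2, hm⟩ * w ^ 2) : SolM a := by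
  have h0 : 0 < m := by omega
  have h1 : 1 < m := by omega
  set x : Fin m → K := fun l => if (l : ℕ) = 0 then u else if (l : ℕ) = 1 then v else
    if (l : ℕ) = 2 then w else 0 with hx
  have x0 : x ⟨0, h0⟩ = u := by simp [hx]
  have x1 : x ⟨1, h1⟩ = v := by simp [hx]
  have x2 : x ⟨2, hm⟩ = w := by simp [hx]
  refine ⟨x, ?_, ?_⟩
  · intro h
    rcases hne with h3 | h3 | h3
    · exact h3 (by rw [← x0, h]; rfl)
    · exact h3 (by rw [← x1, h]; rfl)
    · exact h3 (by rw [← x2, h]; rfl)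
  · have hs : ∑ l : Fin m, a l * x l ^ 2 =
        ∑ l ∈ ({⟨0, h0⟩, ⟨1, h1⟩, ⟨2, hm⟩} : Finset (Fin m)), a l * x l ^ 2 := by
      symm
      apply Finset.sum_subset (Finset.subset_univ _)
      intro l _ hl
      simp only [Finset.mem_insert, Finset.mem_singleton, not_or, Fin.ext_iff] at hl
      simp [hx, hl.1, hl.2.1, hl.2.2]
    rw [hs, Finset.sum_insert (by simp [Fin.ext_iff]), Finset.sum_insert (by simp [Fin.ext_iff]),
      Finset.sum_singleton, x0, x1, x2]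
    linear_combination he

theorem solM_two {m : ℕ} (A : Fin m → ℝ) (i j : Fin m) (hij : i ≠ j) (h : A i * A j < 0) :
    SolM A := by
  have hi : A i ≠ 0 := fun e => by rw [e, zero_mul] at h; exact lt_irrefl _ h
  have hpos : 0 ≤ -A j / A i := by
    have h1 : -A j / A i = -(A i * A j) / (A i) ^ 2 := by field_simp
    rw [h1]
    exact div_nonneg (by linarith) (sq_nonneg _)
  refine ⟨fun l => if l = i then Real.sqrt (-A j / A i) else if l = j then 1 else 0, ?_, ?_⟩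
  · intro e
    have := congrFun e j
    simp only [hij.symm, if_false, if_true, Pi.zero_apply] at this
    exact one_ne_zero this
  · have hs : ∑ l : Fin m, A l * (if l = i then Real.sqrt (-A j / A i) else
        if l = j then 1 else 0) ^ 2 = ∑ l ∈ ({i, j} : Finset (Fin m)),
          A l * (if l = i then Real.sqrt (-A j / A i) else if l = j then 1 else 0) ^ 2 := by
      symm
      apply Finset.sum_subset (Finset.subset_univ _)
      intro l _ hl
      simp only [Finset.mem_insert, Finset.mem_singleton, not_or] at hl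
      simp [hl.1, hl.2]
    rw [hs, Finset.sum_insert (by simpa using hij), Finset.sum_singleton, if_pos rfl,
      if_neg hij.symm, if_pos rfl, Real.sq_sqrt hpos]
    field_simp
    ring

theorem sol_real (A B T : ℝ) (h : 0 < A * T ∨ 0 < B * T) : Sol A B T := by
  rcases h with h | h
  · have hA : A ≠ 0 := fun e => by rw [e, zero_mul] at h; exact lt_irrefl _ h
    have hpos : 0 ≤ T / A := by
      have h1 : T / A = (A * T) / A ^ 2 := by field_simp
      rw [h1]; positivity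
    refine ⟨Real.sqrt (T / A), 0, 1, Or.inr (Or.inr one_ne_zero), ?_⟩
    rw [Real.sq_sqrt hpos]
    field_simp
    ring
  · have hB : B ≠ 0 := fun e => by rw [e, zero_mul] at h; exact lt_irrefl _ h
    have hpos : 0 ≤ T / B := by
      have h1 : T / B = (B * T) / B ^ 2 := by field_simp
      rw [h1]; positivity
    refine ⟨0, Real.sqrt (T / B), 1, Or.inr (Or.inr one_ne_zero), ?_⟩
    rw [Real.sq_sqrt hpos]
    field_simp
    ring

theorem solM_cons_real {n : ℕ} (t : ℤ) (C : Fin n → ℤ) (l : Fin n) (h : t * C l < 0) :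
    SolM (fun l => (((Fin.cons t C : Fin (n + 1) → ℤ) l : ℤ) : ℝ)) := by
  apply solM_two _ 0 l.succ (Fin.succ_ne_zero l).symm
  rw [Fin.cons_zero, Fin.cons_succ]
  exact_mod_cast h

theorem real_sgn (n : ℕ) (a b : ℤ) (C : Fin n → ℤ) (hn : 2 ≤ n) (ha : a ≠ 0) (hb : b ≠ 0)
    (hC : ∀ l, C l ≠ 0)
    (h : SolM (fun l => (((Fin.cons a (Fin.cons b C : Fin (n + 1) → ℤ) :
      Fin (n + 2) → ℤ) l : ℤ) : ℝ))) :
    ∃ σ : ℤ, (σ = 1 ∨ σ = -1) ∧ ∀ t : ℤ, 0 < σ * t → Sol (a : ℝ) (b : ℝ) (t : ℝ) ∧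
      SolM (fun l => (((Fin.cons t C : Fin (n + 1) → ℤ) l : ℤ) : ℝ)) := by
  have hsol : ∀ t : ℤ, (0 < a * t ∨ 0 < b * t) → Sol (a : ℝ) (b : ℝ) (t : ℝ) := by
    intro t ht
    apply sol_real
    rcases ht with ht | ht
    · left; exact_mod_cast ht
    · right; exact_mod_cast ht
  rcases lt_or_gt_of_ne (mul_ne_zero ha hb) with hab | hab
  · -- opposite signs
    have h0 : 0 < n := by omega
    set c0 := C ⟨0, h0⟩ with hc0
    have hc0' : c0 ≠ 0 := hC _
    have hkey : ∀ t : ℤ, t ≠ 0 → (0 < a * t ∨ 0 < b * t) := by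
      intro t ht
      by_contra hcon
      push Not at hcon
      have h1 : a * t < 0 := lt_of_le_of_ne hcon.1 (mul_ne_zero ha ht)
      have h2 : b * t < 0 := lt_of_le_of_ne hcon.2 (mul_ne_zero hb ht)
      have h3 : 0 < (a * t) * (b * t) := mul_pos_of_neg_of_neg h1 h2
      have h4 : (a * t) * (b * t) = (a * b) * (t * t) := by ring
      have h5 : 0 < t * t := mul_self_pos.2 ht
      nlinarith
    rcases lt_or_gt_of_ne hc0' with hc | hc
    · refine ⟨1, Or.inl rfl, fun t ht => ⟨hsol t (hkey t ?_), solM_cons_real t C ⟨0, h0⟩ ?_⟩⟩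
      · rintro rfl; simp at ht
      · rw [one_mul] at ht; exact mul_neg_of_pos_of_neg ht hc
    · refine ⟨-1, Or.inr rfl, fun t ht => ⟨hsol t (hkey t ?_), solM_cons_real t C ⟨0, h0⟩ ?_⟩⟩
      · rintro rfl; simp at ht
      · have : t < 0 := by linarith
        exact mul_neg_of_neg_of_pos this hc
  · -- the same sign
    have hex : ∃ l, a * C l < 0 := by
      by_contra hcon
      push Not at hcon
      obtain ⟨u, hu, hsum⟩ := h
      apply hu
      have hs : ∑ l : Fin (n + 2), (a : ℝ) * ((((Fin.cons a (Fin.cons b C : Fin (n + 1) → ℤ) :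
          Fin (n + 2) → ℤ) l : ℤ) : ℝ) * u l ^ 2) = 0 := by
        rw [← Finset.mul_sum, hsum, mul_zero]
      have hcoef : ∀ l : Fin (n + 2), (0 : ℝ) < (a : ℝ) * (((Fin.cons a
          (Fin.cons b C : Fin (n + 1) → ℤ) : Fin (n + 2) → ℤ) l : ℤ) : ℝ) := by
        intro l
        refine Fin.cases ?_ (fun l => Fin.cases ?_ (fun l => ?_) l) l
        · rw [Fin.cons_zero]
          exact_mod_cast mul_self_pos.2 ha
        · rw [Fin.cons_succ, Fin.cons_zero]
          exact_mod_cast hab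
        · rw [Fin.cons_succ, Fin.cons_succ]
          exact_mod_cast lt_of_le_of_ne (hcon l) (mul_ne_zero ha (hC l)).symm
      have hz := (Finset.sum_eq_zero_iff_of_nonneg (fun l _ => by
        rw [← mul_assoc]; exact mul_nonneg (hcoef l).le (sq_nonneg _))).1 hs
      funext l
      have h1 := hz l (Finset.mem_univ l)
      rw [← mul_assoc] at h1
      rcases mul_eq_zero.1 h1 with h2 | h2
      · exact absurd h2 (hcoef l).ne'
      · simpa using h2
    obtain ⟨l, hl⟩ := hex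
    have hlt : ∀ t : ℤ, 0 < a * t → t * C l < 0 := by
      intro t ht
      by_contra hcon
      push Not at hcon
      have h1 : (a * t) * (a * C l) < 0 := mul_neg_of_pos_of_neg ht hl
      have h2 : (a * t) * (a * C l) = (a * a) * (t * C l) := by ring
      have h3 : 0 ≤ (a * a) * (t * C l) := mul_nonneg (mul_self_nonneg a) hcon
      linarith
    rcases lt_or_gt_of_ne ha with hneg | hpos
    · refine ⟨-1, Or.inr rfl, fun t ht => ?_⟩
      have h1 : 0 < a * t := mul_pos_of_neg_of_neg hneg (by linarith)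
      exact ⟨hsol t (Or.inl h1), solM_cons_real t C l (hlt t h1)⟩
    · refine ⟨1, Or.inl rfl, fun t ht => ?_⟩
      have h1 : 0 < a * t := mul_pos hpos (by linarith)
      exact ⟨hsol t (Or.inl h1), solM_cons_real t C l (hlt t h1)⟩

theorem exists_prime_cong (B : Finset ℕ) (hB : ∀ p ∈ B, p.Prime) (c u : ℕ → ℤ)
    (hc : ∀ p ∈ B, ¬ (p : ℤ) ∣ c p) (hu : ∀ p ∈ B, ¬ (p : ℤ) ∣ u p) (X : ℕ) :
    ∃ q : ℕ, X < q ∧ q.Prime ∧ ∀ p ∈ B, (p : ℤ) ^ 3 ∣ c p * q - u p := by
  have hr : ∀ p ∈ B, ∃ r : ℕ, (p : ℤ) ^ 3 ∣ c p * r - u p := by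
    intro p hp
    have hpp := Nat.prime_iff_prime_int.1 (hB p hp)
    have hcop : IsCoprime (c p) ((p : ℤ) ^ 3) := by
      apply IsCoprime.pow_right
      rw [isCoprime_comm]
      exact (Prime.coprime_iff_not_dvd hpp).2 (hc p hp)
    obtain ⟨x, y, hxy⟩ := hcop
    have hp3 : (0 : ℤ) < (p : ℤ) ^ 3 := by
      have := (hB p hp).pos
      positivity
    refine ⟨((x * u p) % (p : ℤ) ^ 3).toNat, ?_⟩
    rw [Int.toNat_of_nonneg (Int.emod_nonneg _ hp3.ne')]
    have h1 : (x * u p) % (p : ℤ) ^ 3 = x * u p - (p : ℤ) ^ 3 * ((x * u p) / (p : ℤ) ^ 3) := by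
      rw [Int.emod_def]
    rw [h1]
    refine ⟨-(y * u p) - c p * ((x * u p) / (p : ℤ) ^ 3), ?_⟩
    linear_combination (u p) * hxy
  choose! r hr using hr
  obtain ⟨a0, ha0⟩ := Nat.chineseRemainderOfFinset r (fun p => p ^ 3) B
    (fun p hp => (pow_pos (hB p hp).pos 3).ne') (by
      intro p hp p' hp' hne
      exact Nat.Coprime.pow 3 3 ((Nat.coprime_primes (hB p hp) (hB p' hp')).2 hne))
  have hcop : a0.Coprime (∏ p ∈ B, p ^ 3) := by
    apply Nat.Coprime.prod_right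
    intro p hp
    apply Nat.Coprime.pow_right
    rw [Nat.coprime_comm, (hB p hp).coprime_iff_not_dvd]
    intro hd
    apply hu p hp
    have h1 : (p : ℤ) ∣ (r p : ℤ) := by
      have h2 : a0 ≡ r p [MOD p] := (ha0 p hp).of_dvd (dvd_pow_self p (by norm_num))
      exact_mod_cast (h2.dvd_iff dvd_rfl).1 hd
    have h3 : (p : ℤ) ∣ c p * r p - u p := dvd_trans (dvd_pow_self _ (by norm_num)) (hr p hp)
    have h4 : (p : ℤ) ∣ c p * r p := dvd_mul_of_dvd_right h1 _
    exact (dvd_sub_right h4).1 h3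
  obtain ⟨q, hqX, hq, hmod⟩ := Nat.forall_exists_prime_gt_and_modEq X
    (Finset.prod_pos (fun p hp => pow_pos (hB p hp).pos 3)).ne' hcop
  refine ⟨q, hqX, hq, fun p hp => ?_⟩
  have h1 : q ≡ r p [MOD p ^ 3] := (hmod.of_dvd (Finset.dvd_prod_of_mem _ hp)).trans (ha0 p hp)
  have h2 : ((p : ℤ) ^ 3) ∣ (q : ℤ) - r p := by
    have := (Nat.modEq_iff_dvd.1 h1.symm)
    exact_mod_cast this
  have h3 : c p * (q : ℤ) - u p = c p * ((q : ℤ) - r p) + (c p * r p - u p) := by ring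
  rw [h3]
  exact dvd_add (dvd_mul_of_dvd_right h2 _) (hr p hp)

theorem norm_one {p : ℕ} [hp : Fact p.Prime] {z : ℤ} (h : ¬ (p : ℤ) ∣ z) : ‖(z : ℚ_[p])‖ = 1 := by
  rw [Padic.norm_intCast_eq_one_iff, isCoprime_comm]
  exact (Prime.coprime_iff_not_dvd (Nat.prime_iff_prime_int.1 hp.out)).2 h

theorem tex_ (h : S_LOCTM) : S_TEX := by
  intro n a b C hn ha hb hC hR hP
  obtain ⟨σ, hσ, hreal⟩ := real_sgn n a b C hn ha hb hC hR
  obtain ⟨D, hD⟩ : ∃ D : ℤ, D = 2 * a * b * ∏ l, C l := ⟨_, rfl⟩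
  have hD0 : D ≠ 0 := by
    rw [hD]
    exact mul_ne_zero (mul_ne_zero (mul_ne_zero two_ne_zero ha) hb)
      (Finset.prod_ne_zero_iff.2 fun l _ => hC l)
  have hDn : D.natAbs ≠ 0 := Int.natAbs_ne_zero.2 hD0
  have h2D : (2 : ℤ) ∣ D := by
    rw [hD, mul_assoc, mul_assoc]; exact dvd_mul_right _ _
  have haD : a ∣ D := ⟨2 * b * ∏ l, C l, by rw [hD]; ring⟩
  have hbD : b ∣ D := ⟨2 * a * ∏ l, C l, by rw [hD]; ring⟩
  have hCD : ∀ l, C l ∣ D := fun l => by
    rw [hD]; exact dvd_mul_of_dvd_right (Finset.dvd_prod_of_mem _ (Finset.mem_univ l)) _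
  obtain ⟨B, hBdef⟩ : ∃ B : Finset ℕ, B = D.natAbs.primeFactors := ⟨_, rfl⟩
  have hBp : ∀ p ∈ B, p.Prime := fun p hp => by
    rw [hBdef] at hp; exact Nat.prime_of_mem_primeFactors hp
  have hBm : ∀ p : ℕ, p.Prime → p ∉ B → ¬ (p : ℤ) ∣ D := by
    intro p hp hpB hd
    apply hpB
    rw [hBdef, Nat.mem_primeFactors]
    exact ⟨hp, Int.natCast_dvd.1 hd, hDn⟩
  have hloc : ∀ p ∈ B, ∃ (k : ℕ) (u : ℤ), ¬ (p : ℤ) ∣ u ∧
      ∀ t : ℤ, (p : ℤ) ^ (k + 3) ∣ t - (p : ℤ) ^ k * u → ∀ (_ : Fact p.Prime),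
        Sol (a : ℚ_[p]) (b : ℚ_[p]) (t : ℚ_[p]) ∧
        SolM (fun l => (((Fin.cons t C : Fin (n + 1) → ℤ) l : ℤ) : ℚ_[p])) := by
    intro p hp
    have : Fact p.Prime := ⟨hBp p hp⟩
    obtain ⟨k, u, hu, hk⟩ := h p n a b C (by omega) ha hb hC (hP p)
    exact ⟨k, u, hu, fun t ht _ => hk t ht⟩
  choose! k u hu hk using hloc
  have hσ0 : ∀ p : ℕ, p.Prime → ¬ (p : ℤ) ∣ σ := by
    intro p hp hd
    have h1 : (p : ℤ) ∣ 1 := by
      rcases hσ with rfl | rfl
      · exact hd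
      · simpa using hd
    have h2 : p ∣ 1 := by exact_mod_cast h1
    exact hp.one_lt.ne' (Nat.dvd_one.1 h2)
  have hprod : ∀ (E : Finset ℕ) (p : ℕ), p.Prime → (∀ p' ∈ E, p'.Prime) → p ∉ E →
      ¬ (p : ℤ) ∣ ∏ p' ∈ E, (p' : ℤ) ^ k p' := by
    intro E p hp hE hpE hd
    have hpp := Nat.prime_iff_prime_int.1 hp
    obtain ⟨p', hp', hd'⟩ := (Prime.dvd_finsetProd_iff hpp _).1 hd
    have h1 : (p : ℤ) ∣ (p' : ℤ) := hpp.dvd_of_dvd_pow hd'
    have h2 : p ∣ p' := by exact_mod_cast h1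
    exact hpE (((Nat.prime_dvd_prime_iff_eq hp (hE p' hp')).1 h2) ▸ hp')
  obtain ⟨q, hqX, hq, hqc⟩ := exists_prime_cong B hBp
    (fun p => σ * ∏ p' ∈ B.erase p, (p' : ℤ) ^ k p') u (by
      intro p hp hd
      have hpp := Nat.prime_iff_prime_int.1 (hBp p hp)
      rcases hpp.dvd_or_dvd hd with h1 | h1
      · exact hσ0 p (hBp p hp) h1
      · exact hprod (B.erase p) p (hBp p hp) (fun p' hp' => hBp p' (Finset.mem_of_mem_erase hp'))
          (Finset.notMem_erase p B) h1) hu D.natAbs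
  obtain ⟨m, hm⟩ : ∃ m : ℤ, m = ∏ p' ∈ B, (p' : ℤ) ^ k p' := ⟨_, rfl⟩
  have hm0 : 0 < m := by
    rw [hm]
    exact Finset.prod_pos fun p' hp' => pow_pos (by exact_mod_cast (hBp p' hp').pos) _
  have hq0 : (0 : ℤ) < q := by exact_mod_cast hq.pos
  have hqD : ∀ z : ℤ, z ∣ D → ¬ (q : ℤ) ∣ z := by
    intro z hz hd
    have h1 : q ∣ D.natAbs := Int.natCast_dvd.1 (dvd_trans hd hz)
    exact absurd (Nat.le_of_dvd (Nat.pos_of_ne_zero hDn) h1) (by omega)
  have hσσ : σ * σ = 1 := by rcases hσ with rfl | rfl <;> norm_num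
  have hσne : σ ≠ 0 := by rcases hσ with rfl | rfl <;> norm_num
  have htpos : 0 < σ * (σ * m * q) := by
    have : σ * (σ * m * q) = (σ * σ) * (m * q) := by ring
    rw [this, hσσ, one_mul]
    exact mul_pos hm0 hq0
  obtain ⟨hr1, hr2⟩ := hreal _ htpos
  refine ⟨σ * m * q, q, mul_ne_zero (mul_ne_zero hσne hm0.ne') hq0.ne', hq, ?_,
    fun l => hqD _ (hCD l), hr1, hr2, ?_⟩
  · rintro rfl
    exact hqD 2 h2D (dvd_refl _)
  · intro p _ hpq
    have hp : p.Prime := Fact.out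
    by_cases hpB : p ∈ B
    · refine hk p hpB _ ?_ inferInstance
      have h1 : σ * m * (q : ℤ) - (p : ℤ) ^ k p * u p =
          (p : ℤ) ^ k p * ((σ * ∏ p' ∈ B.erase p, (p' : ℤ) ^ k p') * q - u p) := by
        rw [hm, ← Finset.mul_prod_erase B (fun p' => (p' : ℤ) ^ k p') hpB]
        ring
      rw [h1, pow_add]
      exact mul_dvd_mul_left _ (hqc p hpB)
    · have hpD := hBm p hp hpB
      have hp2 : p ≠ 2 := by
        rintro rfl
        exact hpD h2D
      have hpp := Nat.prime_iff_prime_int.1 hp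
      have hpt : ¬ (p : ℤ) ∣ σ * m * q := by
        intro hd
        rcases hpp.dvd_or_dvd hd with h1 | h1
        · rcases hpp.dvd_or_dvd h1 with h2 | h2
          · exact hσ0 p hp h2
          · rw [hm] at h2
            exact hprod B p hp hBp hpB h2
        · have h2 : p ∣ q := by exact_mod_cast h1
          exact hpq ((Nat.prime_dvd_prime_iff_eq hp hq).1 h2)
      have nt := norm_one (p := p) hpt
      have na := norm_one (p := p) (fun hd => hpD (dvd_trans hd haD))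
      have nb := norm_one (p := p) (fun hd => hpD (dvd_trans hd hbD))
      have nC := fun l => norm_one (p := p) (z := C l) (fun hd => hpD (dvd_trans hd (hCD l)))
      refine ⟨Pool.Agent.N353.PN.un3_ p hp2 _ _ _ na nb nt, ?_⟩
      have h0 : 0 < n := by omega
      have h1 : 1 < n := by omega
      obtain ⟨x, y, z, hne, he⟩ := Pool.Agent.N353.PN.un3_ p hp2 ((σ * m * q : ℤ) : ℚ_[p])
        ((C ⟨0, h0⟩ : ℤ) : ℚ_[p]) (-((C ⟨1, h1⟩ : ℤ) : ℚ_[p])) nt (nC _) (by rw [norm_neg]; exact nC _)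
      have h3 : 2 < n + 1 := by omega
      have e0 : (Fin.cons (σ * m * (q : ℤ)) C : Fin (n + 1) → ℤ) ⟨0, by omega⟩ = σ * m * q := rfl
      have e1 : (Fin.cons (σ * m * (q : ℤ)) C : Fin (n + 1) → ℤ) ⟨1, by omega⟩ = C ⟨0, h0⟩ := by
        show (Fin.cons (σ * m * (q : ℤ)) C : Fin (n + 1) → ℤ) (Fin.succ ⟨0, h0⟩) = _
        rw [Fin.cons_succ]
      have e2 : (Fin.cons (σ * m * (q : ℤ)) C : Fin (n + 1) → ℤ) ⟨2, h3⟩ = C ⟨1, h1⟩ := by
        show (Fin.cons (σ * m * (q : ℤ)) C : Fin (n + 1) → ℤ) (Fin.succ ⟨1, h1⟩) = _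
        rw [Fin.cons_succ]
      refine solM_three h3 _ x y z hne ?_
      simp only [e0, e1, e2]
      exact he

end Pool.Agent.U373.DQ
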